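import Pool.Agent.W16.FX.Defs

/-! Project FX (helper16), task FX-PHI. -/

set_option autoImplicit false

namespace Pool.Agent.W376.FX

open Finset Pool.Agent.W16.FX

/-- determinant of four rows -/
def D4 (a b c x : Fin 4 → ℤ) : ℤ := Matrix.det (Matrix.of ![a, b, c, x])

/-- unit vectors -/
def E4 (i : Fin 4) : Fin 4 → ℤ := Pi.single i 1

lemma D4_eq (a b c x : Fin 4 → ℤ) : D4 a b c x =
    a 0 * (b 1 * (c 2 * x 3 - c 3 * x 2) - b 2 * (c 1 * x 3 - c 3 * x 1) +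
      b 3 * (c 1 * x 2 - c 2 * x 1)) -
    a 1 * (b 0 * (c 2 * x 3 - c 3 * x 2) - b 2 * (c 0 * x 3 - c 3 * x 0) +
      b 3 * (c 0 * x 2 - c 2 * x 0)) +
    a 2 * (b 0 * (c 1 * x 3 - c 3 * x 1) - b 1 * (c 0 * x 3 - c 3 * x 0) +
      b 3 * (c 0 * x 1 - c 1 * x 0)) -
    a 3 * (b 0 * (c 1 * x 2 - c 2 * x 1) - b 1 * (c 0 * x 2 - c 2 * x 0) +
      b 2 * (c 0 * x 1 - c 1 * x 0)) := by
  unfold D4
  simp [Matrix.det_succ_row_zero, Fin.sum_univ_succ, Fin.succAbove, Matrix.submatrix]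
  ring

lemma det_bound (A : Matrix (Fin 4) (Fin 4) ℤ) (b : Fin 4 → ℤ) (h : ∀ i j, |A i j| ≤ b i) :
    |A.det| ≤ 24 * ∏ i, b i := by
  rw [Matrix.det_apply]
  refine (Finset.abs_sum_le_sum_abs _ _).trans ?_
  have h1 : ∀ σ ∈ (Finset.univ : Finset (Equiv.Perm (Fin 4))),
      |Equiv.Perm.sign σ • ∏ i, A (σ i) i| ≤ ∏ i, b i := by
    intro σ _
    have h2 : |Equiv.Perm.sign σ • ∏ i, A (σ i) i| = ∏ i, |A (σ i) i| := by
      rw [← Finset.abs_prod]
      rcases Int.units_eq_one_or (Equiv.Perm.sign σ) with h | h <;> rw [h] <;> simp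
    rw [h2, ← Equiv.prod_comp σ b]
    apply Finset.prod_le_prod
    · intro i _; exact abs_nonneg _
    · intro i _; exact h _ _
  refine (Finset.sum_le_card_nsmul _ _ _ h1).trans ?_
  rw [Finset.card_univ, Fintype.card_perm, Fintype.card_fin]
  simp [Nat.factorial]

lemma D4_lin (a b c x : Fin 4 → ℤ) : D4 a b c x = ∑ i, D4 a b c (E4 i) * x i := by
  simp only [D4_eq, Fin.sum_univ_four, E4]
  simp [Pi.single_apply]
  ring

lemma D4_lin3 (a b c x : Fin 4 → ℤ) : D4 a b c x = ∑ i, D4 a b (E4 i) x * c i := by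
  simp only [D4_eq, Fin.sum_univ_four, E4]
  simp [Pi.single_apply]
  ring

lemma D4_lin2 (a b c x : Fin 4 → ℤ) : D4 a b c x = ∑ i, D4 a (E4 i) c x * b i := by
  simp only [D4_eq, Fin.sum_univ_four, E4]
  simp [Pi.single_apply]
  ring

lemma D4_swap (a b c x : Fin 4 → ℤ) : D4 a b c x = - D4 a b x c := by
  rw [D4_eq, D4_eq]; ring

lemma D4_cyc (a b c x : Fin 4 → ℤ) : D4 a b c x = D4 a x b c := by
  rw [D4_eq, D4_eq]; ring

lemma E4_le (i j : Fin 4) : |E4 i j| ≤ 1 := by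
  unfold E4
  rw [Pi.single_apply]
  split_ifs <;> simp

lemma D4_bound (B : ℤ) (hB : 1 ≤ B) (a b c : Fin 4 → ℤ) (ha : ∀ i, |a i| ≤ B)
    (hb : ∀ i, |b i| ≤ B) (hc : ∀ i, |c i| ≤ B) (j : Fin 4) : |D4 a b c (E4 j)| ≤ 64 * B ^ 3 := by
  have h := det_bound (Matrix.of ![a, b, c, E4 j]) ![B, B, B, 1] (by
    intro i k
    fin_cases i
    · simpa using ha k
    · simpa using hb k
    · simpa using hc k
    · simpa using E4_le j k)
  have h2 : ∏ i, (![B, B, B, 1] : Fin 4 → ℤ) i = B ^ 3 := by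
    simp [Fin.prod_univ_four]; ring
  rw [h2] at h
  have : 0 ≤ B ^ 3 := by positivity
  unfold D4
  linarith

theorem stmtPhi : StmtPhi := by
  intro V B hB hV hdep
  have hE : ∀ i j, |E4 i j| ≤ B := fun i j => (E4_le i j).trans hB
  have fin : ∀ a b c : Fin 4 → ℤ, (∀ i, |a i| ≤ B) → (∀ i, |b i| ≤ B) → (∀ i, |c i| ≤ B) →
      ∀ x, D4 a b c x ≠ 0 → (∀ v ∈ V, D4 a b c v = 0) →
      ∃ Φ : Fin 4 → ℤ, Φ ≠ 0 ∧ (∀ i, |Φ i| ≤ 64 * B ^ 3) ∧ ∀ v ∈ V, ∑ i, Φ i * v i = 0 := by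
    intro a b c ha hb hc x hx hv
    refine ⟨fun i => D4 a b c (E4 i), ?_, fun i => D4_bound B hB a b c ha hb hc i, ?_⟩
    · intro h0
      apply hx
      rw [D4_lin]
      apply Finset.sum_eq_zero
      intro i _
      have := congrFun h0 i
      simp only [Pi.zero_apply] at this
      rw [this, zero_mul]
    · intro v hvV
      rw [← D4_lin]
      exact hv v hvV
  by_cases hA : ∃ a ∈ V, ∃ b ∈ V, ∃ c ∈ V, ∃ x, D4 a b c x ≠ 0
  · obtain ⟨a, ha, b, hb, c, hc, x, hx⟩ := hA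
    exact fin a b c (hV a ha) (hV b hb) (hV c hc) x hx (fun v hv => hdep a ha b hb c hc v hv)
  push Not at hA
  by_cases hB' : ∃ a ∈ V, ∃ b ∈ V, ∃ y x, D4 a b y x ≠ 0
  · obtain ⟨a, ha, b, hb, y, x, hx⟩ := hB'
    obtain ⟨i, hi⟩ : ∃ i, D4 a b (E4 i) x ≠ 0 := by
      by_contra hcon
      push Not at hcon
      apply hx
      rw [D4_lin3]
      exact Finset.sum_eq_zero (fun i _ => by rw [hcon i, zero_mul])
    refine fin a b (E4 i) (hV a ha) (hV b hb) (hE i) x hi (fun v hv => ?_)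
    rw [D4_swap, hA a ha b hb v hv, neg_zero]
  push Not at hB'
  by_cases hC : ∃ a ∈ V, ∃ z y x, D4 a z y x ≠ 0
  · obtain ⟨a, ha, z, y, x, hx⟩ := hC
    obtain ⟨i, hi⟩ : ∃ i, D4 a (E4 i) y x ≠ 0 := by
      by_contra hcon
      push Not at hcon
      apply hx
      rw [D4_lin2]
      exact Finset.sum_eq_zero (fun i _ => by rw [hcon i, zero_mul])
    obtain ⟨j, hj⟩ : ∃ j, D4 a (E4 i) (E4 j) x ≠ 0 := by
      by_contra hcon
      push Not at hcon
      apply hi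
      rw [D4_lin3]
      exact Finset.sum_eq_zero (fun i _ => by rw [hcon i, zero_mul])
    refine fin a (E4 i) (E4 j) (hV a ha) (hE i) (hE j) x hj (fun v hv => ?_)
    rw [D4_cyc, hB' a ha v hv]
  push Not at hC
  refine ⟨E4 0, ?_, ?_, ?_⟩
  · intro h
    have := congrFun h 0
    simp [E4] at this
  · intro i
    have h1 := E4_le 0 i
    have : 1 ≤ B ^ 3 := one_le_pow₀ hB
    linarith
  · intro v hv
    have h0 : v 0 = 0 := by
      have := hC v hv (E4 1) (E4 2) (E4 3)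
      rw [D4_eq] at this
      simpa [E4] using this
    simp [Fin.sum_univ_four, E4, h0]

end Pool.Agent.W376.FX
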