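import Pool.Agent.W16.FX.Defs

/-! Project FX (helper16), task FX-ZERO. -/

set_option autoImplicit false

namespace Pool.Agent.W376.FX

open Finset Pool.Agent.W16.FX

lemma sol_cop {u M N : ℤ} {t : Quad} (h : Sol u M N t) : IsCoprime t.p t.p' :=
  (IsCoprime.of_mul_left_right h.cop).of_mul_right_right

lemma sol_cop_q {u M N : ℤ} {t : Quad} (h : Sol u M N t) : IsCoprime t.q t.q' :=
  ((IsCoprime.of_mul_left_left h.cop).of_mul_left_right).of_mul_right_left.of_mul_right_right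

lemma eq_of_ratio {a b c d : ℤ} (ha : 0 < a) (hc : 0 < c) (hab : IsCoprime a b)
    (hcd : IsCoprime c d) (h : a * d = c * b) : a = c ∧ b = d := by
  have h1 : a ∣ c := by
    have : a ∣ c * b := ⟨d, h.symm⟩
    exact hab.dvd_of_dvd_mul_right this
  have h2 : c ∣ a := by
    have : c ∣ a * d := ⟨b, h⟩
    exact hcd.dvd_of_dvd_mul_right this
  have h3 : a = c := Int.dvd_antisymm ha.le hc.le h1 h2
  subst h3
  exact ⟨rfl, (mul_left_cancel₀ ha.ne' h).symm⟩

lemma lin_ratio {x y a b c d : ℤ} (hxy : x ≠ 0 ∨ y ≠ 0) (h1 : x * a + y * b = 0)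
    (h2 : x * c + y * d = 0) : a * d = c * b := by
  have e1 : x * (a * d - c * b) = 0 := by linear_combination d * h1 - b * h2
  have e2 : y * (a * d - c * b) = 0 := by linear_combination a * h2 - c * h1
  rcases hxy with h | h
  · have := (mul_eq_zero.mp e1).resolve_left h; linarith
  · have := (mul_eq_zero.mp e2).resolve_left h; linarith

lemma one_le_of_pos {a : ℤ} (h : 0 < a) : 1 ≤ a := h

/-- coordinates are at most `c` -/
lemma sol_le {u M N : ℤ} (hu : 1 ≤ u) (hM : 1 ≤ M) (hN : 1 ≤ N) {t : Quad} (h : Sol u M N t) :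
    t.p ^ 3 ≤ t.c N - u ∧ t.q ≤ t.c N - u ∧ t.p' ^ 3 ≤ t.c N ∧ t.q' ≤ t.c N ∧ t.p ≤ t.c N ∧
      t.p' ≤ t.c N := by
  have hp := one_le_of_pos h.p_pos
  have hq := one_le_of_pos h.q_pos
  have hp' := one_le_of_pos h.p'_pos
  have hq' := one_le_of_pos h.q'_pos
  have hp3 : 1 ≤ t.p ^ 3 := one_le_pow₀ hp
  have hp'3 : 1 ≤ t.p' ^ 3 := one_le_pow₀ hp'
  have e : M * t.q * t.p ^ 3 = t.c N - u := by
    unfold Quad.c
    linarith [h.eq]
  have e' : N * t.q' * t.p' ^ 3 = t.c N := rfl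
  have hMq : 1 ≤ M * t.q := one_le_mul_of_one_le_of_one_le hM hq
  have hNq' : 1 ≤ N * t.q' := one_le_mul_of_one_le_of_one_le hN hq'
  have a1 : t.p ^ 3 ≤ M * t.q * t.p ^ 3 := le_mul_of_one_le_left (by linarith) hMq
  have a2 : t.q ≤ M * t.q := le_mul_of_one_le_left (by linarith) hM
  have a3 : M * t.q ≤ M * t.q * t.p ^ 3 := le_mul_of_one_le_right (by linarith) hp3
  have b1 : t.p' ^ 3 ≤ N * t.q' * t.p' ^ 3 := le_mul_of_one_le_left (by linarith) hNq'
  have b2 : t.q' ≤ N * t.q' := le_mul_of_one_le_left (by linarith) hN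
  have b3 : N * t.q' ≤ N * t.q' * t.p' ^ 3 := le_mul_of_one_le_right (by linarith) hp'3
  have c1 : t.p ≤ t.p ^ 3 := le_self_pow₀ hp (by norm_num)
  have c2 : t.p' ≤ t.p' ^ 3 := le_self_pow₀ hp' (by norm_num)
  refine ⟨by linarith, by linarith, by linarith, by linarith, by linarith, by linarith⟩

/-- first kind: fixed `(p, p')` -/
lemma first_kind {u M N : ℤ} (hN : 1 ≤ N) {s : Quad} (hs : Sol u M N s)
    (T : Finset Quad) (hT : ∀ t ∈ T, Sol u M N t ∧ Near t s)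
    (hsame : ∀ t ∈ T, ∀ t' ∈ T, t.p = t'.p ∧ t.p' = t'.p') :
    (T.card : ℝ) ≤ 1 + 65536 * ((s.q : ℝ) * s.q' / s.c N) := by
  have hsq : (0 : ℝ) < s.q := by exact_mod_cast hs.q_pos
  have hsq' : (0 : ℝ) < s.q' := by exact_mod_cast hs.q'_pos
  have hsp' : (0 : ℝ) < s.p' := by exact_mod_cast hs.p'_pos
  have hNR : (1 : ℝ) ≤ N := by exact_mod_cast hN
  have hcR : (s.c N : ℝ) = N * s.q' * (s.p' : ℝ) ^ 3 := by unfold Quad.c; push_cast; ring
  have hc0 : (0 : ℝ) < s.c N := by rw [hcR]; positivity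
  rcases T.eq_empty_or_nonempty with h0 | ⟨t₀, ht₀⟩
  · rw [h0]; simp; positivity
  obtain ⟨hS0, hN0⟩ := hT t₀ ht₀
  set m := N * t₀.p' ^ 3 with hm
  have hp'0 := hS0.p'_pos
  have hm0 : 0 < m := by positivity
  have key : ∀ t ∈ T, ∀ t' ∈ T, m ∣ t.q - t'.q := by
    intro t ht t' ht'
    have e1 := (hT t ht).1.eq
    have e2 := (hT t' ht').1.eq
    obtain ⟨a1, a2⟩ := hsame t ht t₀ ht₀
    obtain ⟨b1, b2⟩ := hsame t' ht' t₀ ht₀
    rw [a1, a2] at e1
    rw [b1, b2] at e2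
    have e3 : (M * t₀.p ^ 3) * (t.q - t'.q) = m * (t.q' - t'.q') := by
      rw [hm]; linear_combination e1 - e2
    have hcop := hS0.cop
    have c1 : IsCoprime M N := hcop.of_mul_left_left.of_mul_left_left.of_mul_right_left.of_mul_right_left
    have c2 : IsCoprime M t₀.p' := hcop.of_mul_left_left.of_mul_left_left.of_mul_right_right
    have c3 : IsCoprime t₀.p N := hcop.of_mul_left_right.of_mul_right_left.of_mul_right_left
    have c4 : IsCoprime t₀.p t₀.p' := sol_cop hS0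
    have c5 : IsCoprime (M * t₀.p ^ 3) m := by
      rw [hm]
      refine IsCoprime.mul_left (IsCoprime.mul_right c1 c2.pow_right) ?_
      exact IsCoprime.mul_right c3.pow_left (c4.pow)
    have : m ∣ (M * t₀.p ^ 3) * (t.q - t'.q) := ⟨_, e3⟩
    exact c5.symm.dvd_of_dvd_mul_left this
  have hcard : T.card ≤ (Finset.Icc (0 : ℤ) (16 * s.q / m)).card := by
    apply Finset.card_le_card_of_injOn (fun t => t.q / m)
    · intro t ht
      have h1 := (hT t ht).1.q_pos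
      have h2 := (hT t ht).2.q_le
      simp only [Finset.coe_Icc, Set.mem_Icc]
      exact ⟨Int.ediv_nonneg h1.le hm0.le, Int.ediv_le_ediv hm0 h2⟩
    · intro t ht t' ht' h
      have h1 := key t ht t' ht'
      have h2 : t.q % m = t'.q % m :=
        Int.emod_eq_emod_iff_emod_sub_eq_zero.mpr (Int.emod_eq_zero_of_dvd h1)
      have h3 : t.q = t'.q := by
        have e1 := Int.emod_add_mul_ediv t.q m
        have e2 := Int.emod_add_mul_ediv t'.q m
        have h' : t.q / m = t'.q / m := h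
        rw [h2, h'] at e1
        linarith
      obtain ⟨a1, a2⟩ := hsame t ht t' ht'
      have e1 := (hT t ht).1.eq
      have e2 := (hT t' ht').1.eq
      rw [h3, a1, a2] at e1
      have hpos := (hT t' ht').1.p'_pos
      have hne : N * t'.p' ^ 3 ≠ 0 := by positivity
      have h4 : t.q' = t'.q' := by
        apply mul_left_cancel₀ hne
        linear_combination e2 - e1
      ext
      · exact a1
      · exact a2
      · exact h3
      · exact h4
  have hfl : (0 : ℤ) ≤ 16 * s.q / m := Int.ediv_nonneg (by have := hs.q_pos; linarith) hm0.le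
  have h1 : (T.card : ℝ) ≤ ((16 * s.q / m : ℤ) : ℝ) + 1 := by
    have h2 : (T.card : ℤ) ≤ 16 * s.q / m + 1 := by
      have h3 : ((Finset.Icc (0 : ℤ) (16 * s.q / m)).card : ℤ) = 16 * s.q / m + 1 := by
        rw [Int.card_Icc]
        rw [Int.toNat_of_nonneg (by linarith)]
        ring
      rw [← h3]; exact_mod_cast hcard
    exact_mod_cast h2
  have hmR : (0 : ℝ) < m := by exact_mod_cast hm0
  have h2 : ((16 * s.q / m : ℤ) : ℝ) ≤ 16 * s.q / m := by
    rw [le_div_iff₀ hmR]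
    have := Int.ediv_mul_le (16 * s.q) hm0.ne'
    exact_mod_cast this
  have h3 : (s.p' : ℝ) ≤ 16 * t₀.p' := by exact_mod_cast hN0.p'_ge
  have h4 : (N : ℝ) * (s.p' : ℝ) ^ 3 ≤ 4096 * m := by
    rw [hm]; push_cast
    have : (s.p' : ℝ) ^ 3 ≤ (16 * t₀.p') ^ 3 := by gcongr
    nlinarith
  have h5 : (16 : ℝ) * s.q / m ≤ 65536 * ((s.q : ℝ) * s.q' / s.c N) := by
    rw [hcR, div_le_iff₀ hmR]
    have e : (s.q : ℝ) * s.q' / (N * s.q' * (s.p' : ℝ) ^ 3) = s.q / (N * (s.p' : ℝ) ^ 3) := by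
      field_simp
    rw [e]
    have hpos : (0 : ℝ) < N * (s.p' : ℝ) ^ 3 := by positivity
    rw [show (65536 : ℝ) * (s.q / (N * (s.p' : ℝ) ^ 3)) * m =
      16 * s.q * ((4096 * m) / (N * (s.p' : ℝ) ^ 3)) by field_simp; ring]
    have : (1 : ℝ) ≤ (4096 * m) / (N * (s.p' : ℝ) ^ 3) := by
      rw [le_div_iff₀ hpos]; linarith
    nlinarith
  linarith

lemma fin_ineq {c u p p' : ℤ} (hu : 1 ≤ u) (hcu : 0 < c - u) (hp : 0 ≤ p) (hp' : 0 ≤ p')
    (h10 : c - u ≤ 16 ^ 8 * u * (p * p')) (l1 : p ^ 3 ≤ c - u) (l3 : p' ^ 3 ≤ c) :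
    c ≤ 8 * (16 ^ 8 * u) ^ 3 := by
  have h15 : u ≤ 16 ^ 8 * u := le_mul_of_one_le_left (by linarith) (by norm_num)
  obtain ⟨K, hK⟩ : ∃ K : ℤ, K = 16 ^ 8 * u := ⟨_, rfl⟩
  rw [← hK] at h10 h15 ⊢
  clear hK
  have hK1 : 1 ≤ K := by linarith
  have h12 : (c - u) ^ 3 ≤ (K * (p * p')) ^ 3 := pow_le_pow_left₀ hcu.le h10 3
  have h13 : (K * (p * p')) ^ 3 ≤ K ^ 3 * ((c - u) * c) := by
    have : p ^ 3 * p' ^ 3 ≤ (c - u) * c := mul_le_mul l1 l3 (by positivity) hcu.le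
    calc (K * (p * p')) ^ 3 = K ^ 3 * (p ^ 3 * p' ^ 3) := by ring
      _ ≤ K ^ 3 * ((c - u) * c) := mul_le_mul_of_nonneg_left this (by positivity)
  have h14 : (c - u) ^ 2 ≤ K ^ 3 * c := by
    have : (c - u) ^ 2 * (c - u) ≤ (K ^ 3 * c) * (c - u) := by
      calc (c - u) ^ 2 * (c - u) = (c - u) ^ 3 := by ring
        _ ≤ K ^ 3 * ((c - u) * c) := h12.trans h13
        _ = (K ^ 3 * c) * (c - u) := by ring
    exact le_of_mul_le_mul_right this hcu
  have hK3 : K ≤ K ^ 3 := le_self_pow₀ hK1 (by norm_num)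
  have hc0 : 0 < c := by linarith
  by_contra hcon
  push Not at hcon
  have h17 : c ≤ 2 * (c - u) := by linarith
  have h18 : c * c ≤ (2 * (c - u)) * (2 * (c - u)) := mul_le_mul h17 h17 hc0.le (by linarith)
  have h19 : c * c ≤ (4 * K ^ 3) * c := by
    calc c * c ≤ (2 * (c - u)) * (2 * (c - u)) := h18
      _ = 4 * (c - u) ^ 2 := by ring
      _ ≤ 4 * (K ^ 3 * c) := by linarith
      _ = (4 * K ^ 3) * c := by ring
  have h20 : c ≤ 4 * K ^ 3 := le_of_mul_le_mul_right h19 hc0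
  linarith

/-- second kind: two different solutions with the same `(q, q')` -/
lemma second_kind {u M N : ℤ} (hu : 1 ≤ u) (hM : 1 ≤ M) (hN : 1 ≤ N) {s : Quad}
    (hs : Sol u M N s) {t t' : Quad} (ht : Sol u M N t ∧ Near t s) (ht' : Sol u M N t' ∧ Near t' s)
    (hq : t.q = t'.q) (hq' : t.q' = t'.q') (hne : t ≠ t') :
    s.c N ≤ 8 * (16 ^ 8 * u) ^ 3 := by
  obtain ⟨hS, hN1⟩ := ht
  obtain ⟨hS', hN2⟩ := ht'
  have ha := hS.p_pos
  have hb := hS.p'_pos
  have ha' := hS'.p_pos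
  have hb' := hS'.p'_pos
  have hsp := hs.p_pos
  have hsp' := hs.p'_pos
  have hsq := hs.q_pos
  have htq := hS.q_pos
  obtain ⟨l1, l2, l3, l4, l5, l6⟩ := sol_le hu hM hN hs
  have e1 := hS.eq
  have e2 := hS'.eq
  rw [← hq, ← hq'] at e2
  set A := M * t.q with hA
  set B := N * t.q' with hB
  have hA1 : 1 ≤ A := one_le_mul_of_one_le_of_one_le hM (one_le_of_pos htq)
  set X := t.p * t'.p' with hX
  set Y := t'.p * t.p' with hY
  have hX0 : 0 < X := mul_pos ha hb'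
  have hY0 : 0 < Y := mul_pos ha' hb
  have hdet : X ≠ Y := by
    intro h
    obtain ⟨h1, h2⟩ := eq_of_ratio ha ha' (sol_cop hS) (sol_cop hS') h
    exact hne (Quad.ext h1 h2 hq hq')
  have hid : A * (X ^ 3 - Y ^ 3) = u * (t.p' ^ 3 - t'.p' ^ 3) := by
    rw [hX, hY]
    linear_combination t'.p' ^ 3 * e1 - t.p' ^ 3 * e2
  -- A * 3 X Y ≤ u * (16 s.p')^3
  have hR : |t.p' ^ 3 - t'.p' ^ 3| ≤ (16 * s.p') ^ 3 := by
    have h1 : t.p' ^ 3 ≤ (16 * s.p') ^ 3 := pow_le_pow_left₀ hb.le hN1.p'_le 3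
    have h2 : t'.p' ^ 3 ≤ (16 * s.p') ^ 3 := pow_le_pow_left₀ hb'.le hN2.p'_le 3
    have h3 : 0 ≤ t.p' ^ 3 := by positivity
    have h4 : 0 ≤ t'.p' ^ 3 := by positivity
    rw [abs_le]; constructor <;> linarith
  have hL : 3 * (X * Y) ≤ |X ^ 3 - Y ^ 3| := by
    have h1 : X ^ 3 - Y ^ 3 = (X - Y) * (X ^ 2 + X * Y + Y ^ 2) := by ring
    have h2 : 1 ≤ |X - Y| := Int.one_le_abs (sub_ne_zero.mpr hdet)
    have h3 : 3 * (X * Y) ≤ X ^ 2 + X * Y + Y ^ 2 := by nlinarith [sq_nonneg (X - Y)]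
    have h4 : 0 ≤ X ^ 2 + X * Y + Y ^ 2 := by positivity
    rw [h1, abs_mul, abs_of_nonneg h4]
    calc 3 * (X * Y) ≤ X ^ 2 + X * Y + Y ^ 2 := h3
      _ ≤ |X - Y| * (X ^ 2 + X * Y + Y ^ 2) := le_mul_of_one_le_left h4 h2
  have hmain : A * (3 * (X * Y)) ≤ u * (16 * s.p') ^ 3 := by
    calc A * (3 * (X * Y)) ≤ A * |X ^ 3 - Y ^ 3| := mul_le_mul_of_nonneg_left hL (by linarith)
      _ = |A * (X ^ 3 - Y ^ 3)| := by rw [abs_mul, abs_of_nonneg (by linarith : (0 : ℤ) ≤ A)]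
      _ = u * |t.p' ^ 3 - t'.p' ^ 3| := by
        rw [hid, abs_mul, abs_of_nonneg (by linarith : (0 : ℤ) ≤ u)]
      _ ≤ u * (16 * s.p') ^ 3 := mul_le_mul_of_nonneg_left hR (by linarith)
  -- lower bound of X Y
  have hXY : (s.p * s.p') ^ 2 ≤ 16 ^ 4 * (X * Y) := by
    have h1 : s.p * s.p ≤ (16 * t.p) * (16 * t'.p) :=
      mul_le_mul hN1.p_ge hN2.p_ge hsp.le (by positivity)
    have h2 : s.p' * s.p' ≤ (16 * t'.p') * (16 * t.p') :=
      mul_le_mul hN2.p'_ge hN1.p'_ge hsp'.le (by positivity)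
    calc (s.p * s.p') ^ 2 = (s.p * s.p) * (s.p' * s.p') := by ring
      _ ≤ ((16 * t.p) * (16 * t'.p)) * ((16 * t'.p') * (16 * t.p')) :=
        mul_le_mul h1 h2 (by positivity) (by positivity)
      _ = 16 ^ 4 * (X * Y) := by rw [hX, hY]; ring
  have hA2 : M * s.q ≤ 16 * A := by
    rw [hA]
    calc M * s.q ≤ M * (16 * t.q) := mul_le_mul_of_nonneg_left hN1.q_ge (by linarith)
      _ = 16 * (M * t.q) := by ring
  have h5 : (M * s.q) * (s.p * s.p') ^ 2 ≤ 16 ^ 8 * u * s.p' ^ 3 := by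
    have h6 : (M * s.q) * (s.p * s.p') ^ 2 ≤ (16 * A) * (16 ^ 4 * (X * Y)) :=
      mul_le_mul hA2 hXY (by positivity) (by positivity)
    have h7 : 0 < A * (X * Y) := by positivity
    have h8 : (16 * A) * (16 ^ 4 * (X * Y)) ≤ 16 ^ 5 * (A * (3 * (X * Y))) := by
      have e : (16 : ℤ) ^ 5 * (A * (3 * (X * Y))) = (16 * A) * (16 ^ 4 * (X * Y)) +
        2 * 16 ^ 5 * (A * (X * Y)) := by ring
      rw [e]
      have : (0 : ℤ) ≤ 2 * 16 ^ 5 * (A * (X * Y)) := mul_nonneg (by norm_num) h7.le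
      linarith
    have h9 : (16 : ℤ) ^ 5 * (A * (3 * (X * Y))) ≤ 16 ^ 5 * (u * (16 * s.p') ^ 3) :=
      mul_le_mul_of_nonneg_left hmain (by norm_num)
    calc (M * s.q) * (s.p * s.p') ^ 2 ≤ _ := h6
      _ ≤ _ := h8
      _ ≤ _ := h9
      _ = 16 ^ 8 * u * s.p' ^ 3 := by ring
  have hc : s.c N - u = M * s.q * s.p ^ 3 := by unfold Quad.c; linarith [hs.eq]
  have h10 : (s.c N - u) ≤ 16 ^ 8 * u * (s.p * s.p') := by
    have h11 : ((s.c N - u)) * s.p' ^ 2 ≤ (16 ^ 8 * u * (s.p * s.p')) * s.p' ^ 2 := by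
      have := mul_le_mul_of_nonneg_right h5 hsp.le
      rw [hc]
      calc M * s.q * s.p ^ 3 * s.p' ^ 2 = M * s.q * (s.p * s.p') ^ 2 * s.p := by ring
        _ ≤ _ := this
        _ = _ := by ring
    exact le_of_mul_le_mul_right h11 (by positivity)
  have hcu : 0 < s.c N - u := by rw [hc]; positivity
  exact fin_ineq hu hcu hsp.le hsp'.le h10 l1 l3

lemma factor (Φ : Fin 4 → ℤ) (h0 : Φ ≠ 0) (hz : Φ 0 * Φ 3 = Φ 1 * Φ 2) :
    ∃ x y z w : ℤ, (x ≠ 0 ∨ y ≠ 0) ∧ (z ≠ 0 ∨ w ≠ 0) ∧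
      ∀ t : Quad, 0 < t.p → 0 < t.p' → 0 < t.q → 0 < t.q' → ∑ i, Φ i * t.vec i = 0 →
        x * t.p + y * t.p' = 0 ∨ z * t.q + w * t.q' = 0 := by
  have hsum : ∀ t : Quad, ∑ i, Φ i * t.vec i = Φ 0 * (t.p * t.q) + Φ 1 * (t.p * t.q') +
      Φ 2 * (t.p' * t.q) + Φ 3 * (t.p' * t.q') := by
    intro t
    simp [Fin.sum_univ_four, Quad.vec]
  by_cases ha : Φ 0 = 0
  · by_cases hb : Φ 1 = 0
    · refine ⟨1, 1, Φ 2, Φ 3, Or.inl one_ne_zero, ?_, ?_⟩
      · by_contra hcon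
        push Not at hcon
        apply h0
        funext i
        fin_cases i
        · exact ha
        · exact hb
        · exact hcon.1
        · exact hcon.2
      · intro t hp hp' hq hq' h
        rw [hsum, ha, hb] at h
        right
        have : t.p' * (Φ 2 * t.q + Φ 3 * t.q') = 0 := by linear_combination h
        exact (mul_eq_zero.mp this).resolve_left hp'.ne'
    · have hc : Φ 2 = 0 := by
        rw [ha, zero_mul] at hz
        exact (mul_eq_zero.mp hz.symm).resolve_left hb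
      refine ⟨Φ 1, Φ 3, 1, 1, Or.inl hb, Or.inl one_ne_zero, ?_⟩
      intro t hp hp' hq hq' h
      rw [hsum, ha, hc] at h
      left
      have : t.q' * (Φ 1 * t.p + Φ 3 * t.p') = 0 := by linear_combination h
      exact (mul_eq_zero.mp this).resolve_left hq'.ne'
  · refine ⟨Φ 0, Φ 2, Φ 0, Φ 1, Or.inl ha, Or.inl ha, ?_⟩
    intro t hp hp' hq hq' h
    rw [hsum] at h
    have : (Φ 0 * t.p + Φ 2 * t.p') * (Φ 0 * t.q + Φ 1 * t.q') = 0 := by
      linear_combination Φ 0 * h - t.p' * t.q' * hz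
    exact mul_eq_zero.mp this

lemma small_case {u M N : ℤ} (K : ℕ) {s : Quad} (T : Finset Quad)
    (hT : ∀ t ∈ T, Sol u M N t ∧ Near t s) (h1 : s.p ≤ K) (h2 : s.p' ≤ K) (h3 : s.q ≤ K)
    (h4 : s.q' ≤ K) : T.card ≤ (16 * K + 1) ^ 4 := by
  have hc : T.card ≤ ((Finset.Icc (0 : ℤ) (16 * K)) ×ˢ (Finset.Icc (0 : ℤ) (16 * K)) ×ˢ
      (Finset.Icc (0 : ℤ) (16 * K)) ×ˢ (Finset.Icc (0 : ℤ) (16 * K))).card := by
    apply Finset.card_le_card_of_injOn (fun t => (t.p, t.p', t.q, t.q'))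
    · intro t ht
      obtain ⟨a, b⟩ := hT t ht
      have := a.p_pos
      have := a.p'_pos
      have := a.q_pos
      have := a.q'_pos
      have := b.p_le
      have := b.p'_le
      have := b.q_le
      have := b.q'_le
      simp only [Finset.coe_product, Set.mem_prod, Finset.coe_Icc, Set.mem_Icc]
      refine ⟨⟨by linarith, by linarith⟩, ⟨by linarith, by linarith⟩, ⟨by linarith, by linarith⟩,
        ⟨by linarith, by linarith⟩⟩
    · intro t _ t' _ h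
      simp only [Prod.mk.injEq] at h
      exact Quad.ext h.1 h.2.1 h.2.2.1 h.2.2.2
  rw [Finset.card_product, Finset.card_product, Finset.card_product, Int.card_Icc] at hc
  have : ((16 * (K : ℤ) + 1 - 0).toNat) = 16 * K + 1 := by omega
  rw [this] at hc
  calc T.card ≤ _ := hc
    _ = (16 * K + 1) ^ 4 := by ring

theorem stmtZero : StmtZero := by
  intro u hu
  set K : ℕ := (8 * (16 ^ 8 * u) ^ 3).toNat with hK
  have hK' : (K : ℤ) = 8 * (16 ^ 8 * u) ^ 3 := by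
    rw [hK, Int.toNat_of_nonneg (by positivity)]
  refine ⟨((16 * K + 1 : ℕ) : ℝ) ^ 4 + 65538, by positivity, ?_⟩
  intro M N hM hN s hs T hT Φ h0 hz hΦ
  have hsq : (0 : ℝ) < s.q := by exact_mod_cast hs.q_pos
  have hsq' : (0 : ℝ) < s.q' := by exact_mod_cast hs.q'_pos
  have hsp' : (0 : ℝ) < s.p' := by exact_mod_cast hs.p'_pos
  have hNR : (1 : ℝ) ≤ N := by exact_mod_cast hN
  have hcR : (s.c N : ℝ) = N * s.q' * (s.p' : ℝ) ^ 3 := by unfold Quad.c; push_cast; ring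
  have hc0 : (0 : ℝ) < s.c N := by rw [hcR]; positivity
  have hr : (0 : ℝ) ≤ (s.q : ℝ) * s.q' / s.c N := by positivity
  by_cases hsmall : s.c N ≤ 8 * (16 ^ 8 * u) ^ 3
  · obtain ⟨l1, l2, l3, l4, l5, l6⟩ := sol_le hu hM hN hs
    have h1 := small_case K T hT (by linarith) (by linarith) (by linarith) (by linarith)
    have h2 : (T.card : ℝ) ≤ ((16 * K + 1 : ℕ) : ℝ) ^ 4 := by exact_mod_cast h1
    have h3 : (0 : ℝ) ≤ ((16 * K + 1 : ℕ) : ℝ) ^ 4 := by positivity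
    nlinarith
  · obtain ⟨x, y, z, w, hxy, hzw, hf⟩ := factor Φ h0 hz
    set T1 := T.filter (fun t => x * t.p + y * t.p' = 0) with hT1
    set T2 := T.filter (fun t => ¬ (x * t.p + y * t.p' = 0)) with hT2
    have hcard : T.card = T1.card + T2.card := (Finset.card_filter_add_card_filter_not _).symm
    have hk1 := first_kind hN hs T1 (fun t ht => hT t (Finset.mem_filter.mp ht).1) (by
      intro t ht t' ht'
      have a1 := (Finset.mem_filter.mp ht)
      have a2 := (Finset.mem_filter.mp ht')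
      have S1 := (hT t a1.1).1
      have S2 := (hT t' a2.1).1
      exact eq_of_ratio S1.p_pos S2.p_pos (sol_cop S1) (sol_cop S2) (lin_ratio hxy a1.2 a2.2))
    have hk2 : T2.card ≤ 1 := by
      rw [Finset.card_le_one]
      intro t ht t' ht'
      by_contra hne
      have a1 := (Finset.mem_filter.mp ht)
      have a2 := (Finset.mem_filter.mp ht')
      have S1 := (hT t a1.1).1
      have S2 := (hT t' a2.1).1
      have b1 := (hf t S1.p_pos S1.p'_pos S1.q_pos S1.q'_pos (hΦ t a1.1)).resolve_left a1.2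
      have b2 := (hf t' S2.p_pos S2.p'_pos S2.q_pos S2.q'_pos (hΦ t' a2.1)).resolve_left a2.2
      obtain ⟨c1, c2⟩ := eq_of_ratio S1.q_pos S2.q_pos (sol_cop_q S1) (sol_cop_q S2)
        (lin_ratio hzw b1 b2)
      exact hsmall (second_kind hu hM hN hs (hT t a1.1) (hT t' a2.1) c1 c2 hne)
    have h1 : (T.card : ℝ) = T1.card + T2.card := by exact_mod_cast hcard
    have h2 : (T2.card : ℝ) ≤ 1 := by exact_mod_cast hk2
    have h3 : (0 : ℝ) ≤ ((16 * K + 1 : ℕ) : ℝ) ^ 4 := by positivity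
    nlinarith

end Pool.Agent.W376.FX
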